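import Pool.Agent.H56.FT.Ext

/-!
# Opposite vertices when `X ↦ min (f X) (f Xᶜ)` is submodular

`mm f X = min (f X) (f Xᶜ)`. The points `x` with `x ∈ B(f)` and `-x ∈ B(f)` are the points of
`base (mm f)`. If `mm f` is submodular, the integral points of this set form an M-convex set; among
those with a maximal number of nonzero coordinates there is one which is a vertex of `B(f)` together
with its negative.
-/

set_option autoImplicit false
set_option maxHeartbeats 4000000

open Finset

namespace Pool.Agent.H70.FMS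

open Pool.Agent.H54.Frank Pool.Agent.H56.FT

variable {V : Type} [Fintype V] [DecidableEq V]

/-- the symmetric function `min (f X) (f Xᶜ)` -/
noncomputable def mm (f : Finset V → ℝ) : Finset V → ℝ := fun X => min (f X) (f Xᶜ)

lemma sum_compl' (x : V → ℝ) (X : Finset V) (hx : ∑ i, x i = 0) :
    ∑ i ∈ Xᶜ, x i = -∑ i ∈ X, x i := by
  have := Finset.sum_add_sum_compl X x
  linarith

lemma mem_mm {f : Finset V → ℝ} (h : Data f) {x : V → ℝ} :
    x ∈ base (mm f) ↔ x ∈ base f ∧ -x ∈ base f := by
  constructor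
  · intro hx
    have hs : ∑ i, x i = 0 := by
      have := hx.2
      rw [this, mm, Finset.compl_univ, h.univ, h.empty, min_self]
    refine ⟨⟨fun X => (hx.1 X).trans (min_le_left _ _), by rw [hs, h.univ]⟩, ⟨fun X => ?_, ?_⟩⟩
    · have h1 := (hx.1 Xᶜ).trans (min_le_right _ _)
      rw [compl_compl, sum_compl' x X hs] at h1
      simpa using h1
    · simp [hs, h.univ]
  · rintro ⟨h1, h2⟩
    have hs : ∑ i, x i = 0 := by rw [h1.2, h.univ]
    refine ⟨fun X => le_min (h1.1 X) ?_, ?_⟩
    · have h3 := h2.1 Xᶜ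
      simp only [Pi.neg_apply, Finset.sum_neg_distrib] at h3
      rw [sum_compl' x X hs] at h3
      linarith
    · rw [hs, mm, Finset.compl_univ, h.univ, h.empty, min_self]

lemma marg_int {f : Finset V → ℝ} (h : Data f) (X : Finset V) (i : V) (hi : i ∉ X) :
    ∃ n : ℤ, f (insert i X) = f X + n ∧ -1 ≤ n ∧ n ≤ 1 := by
  rcases h.marg X i hi with h1 | h1 | h1
  · exact ⟨0, by push_cast; linarith, by norm_num, by norm_num⟩
  · exact ⟨1, by push_cast; linarith, by norm_num, by norm_num⟩
  · exact ⟨-1, by push_cast; linarith, by norm_num, by norm_num⟩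

/-- `mm f` satisfies the hypotheses of the question, if it is submodular. -/
lemma mm_data {f : Finset V → ℝ} (h : Data f) (hm : Submodular (mm f)) : Data (mm f) where
  sub := hm
  empty := by rw [mm, Finset.compl_empty, h.univ, h.empty, min_self]
  univ := by rw [mm, Finset.compl_univ, h.univ, h.empty, min_self]
  nonneg X := le_min (h.nonneg _) (h.nonneg _)
  marg X i hi := by
    obtain ⟨n1, e1, a1, b1⟩ := marg_int h X i hi
    have hi' : i ∉ (insert i X)ᶜ := by simp
    have hc : insert i (insert i X)ᶜ = Xᶜ := by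
      ext j
      simp only [Finset.mem_insert, Finset.mem_compl, not_or]
      constructor
      · rintro (rfl | ⟨-, h1⟩)
        · exact hi
        · exact h1
      · intro h1
        by_cases hj : j = i
        · exact Or.inl hj
        · exact Or.inr ⟨hj, h1⟩
    obtain ⟨n2, e2, a2, b2⟩ := marg_int h (insert i X)ᶜ i hi'
    rw [hc] at e2
    obtain ⟨p, hp⟩ := h.int X
    obtain ⟨q, hq⟩ := h.int (insert i X)ᶜ
    have E : mm f (insert i X) - mm f X = ((min (p + n1) q - min p (q + n2) : ℤ) : ℝ) := by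
      rw [mm, mm, e1, e2, hp, hq]
      push_cast
      rfl
    rw [E]
    have : min (p + n1) q - min p (q + n2) = 0 ∨ min (p + n1) q - min p (q + n2) = 1 ∨
        min (p + n1) q - min p (q + n2) = -1 := by omega
    rcases this with h1 | h1 | h1
    · left; rw [h1]; norm_num
    · right; left; rw [h1]; norm_num
    · right; right; rw [h1]; norm_num

/-! ### tight sets -/

lemma Tight.inter {f : Finset V → ℝ} (hf : Submodular f) {x : V → ℝ} (hx : x ∈ base f)
    {X Y : Finset V} (h1 : Tight f x X) (h2 : Tight f x Y) : Tight f x (X ∩ Y) :=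
  (Tight.inter_union hf hx h1 h2).1

lemma Tight.union {f : Finset V → ℝ} (hf : Submodular f) {x : V → ℝ} (hx : x ∈ base f)
    {X Y : Finset V} (h1 : Tight f x X) (h2 : Tight f x Y) : Tight f x (X ∪ Y) :=
  (Tight.inter_union hf hx h1 h2).2

/-- the smallest tight set containing `c` -/
lemma exists_dep {f : Finset V → ℝ} (h : Data f) {x : V → ℝ} (hx : x ∈ base f) (c : V) :
    ∃ D : Finset V, Tight f x D ∧ c ∈ D ∧ ∀ Y, Tight f x Y → c ∈ Y → D ⊆ Y := by
  classical
  have hne : ((Finset.univ : Finset (Finset V)).filter fun Y => Tight f x Y ∧ c ∈ Y).Nonempty :=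
    ⟨Finset.univ, by simp [tight_univ hx]⟩
  obtain ⟨D, hD, hmin⟩ := Finset.exists_min_image _ (fun Y : Finset V => #Y) hne
  rw [Finset.mem_filter] at hD
  refine ⟨D, hD.2.1, hD.2.2, fun Y hY hc => ?_⟩
  have h1 : Tight f x (D ∩ Y) := Tight.inter h.sub hx hD.2.1 hY
  have h2 := hmin (D ∩ Y) (Finset.mem_filter.2
    ⟨Finset.mem_univ _, h1, Finset.mem_inter.2 ⟨hD.2.2, hc⟩⟩)
  have h3 : D ∩ Y = D := Finset.eq_of_subset_of_card_le Finset.inter_subset_left h2
  exact Finset.inter_eq_left.1 h3

/-- the largest tight set avoiding `c` -/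
lemma exists_codep {f : Finset V → ℝ} (h : Data f) {x : V → ℝ} (hx : x ∈ base f) (c : V) :
    ∃ U : Finset V, Tight f x U ∧ c ∉ U ∧ ∀ Y, Tight f x Y → c ∉ Y → Y ⊆ U := by
  classical
  have hne : ((Finset.univ : Finset (Finset V)).filter fun Y => Tight f x Y ∧ c ∉ Y).Nonempty :=
    ⟨∅, by simp [tight_empty h.empty x]⟩
  obtain ⟨D, hD, hmax⟩ := Finset.exists_max_image _ (fun Y : Finset V => #Y) hne
  rw [Finset.mem_filter] at hD
  refine ⟨D, hD.2.1, hD.2.2, fun Y hY hc => ?_⟩
  have h1 : Tight f x (D ∪ Y) := Tight.union h.sub hx hD.2.1 hY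
  have h2 := hmax (D ∪ Y) (Finset.mem_filter.2 ⟨Finset.mem_univ _, h1, fun h3 =>
    (Finset.mem_union.1 h3).elim hD.2.2 hc⟩)
  have h3 : D = D ∪ Y := Finset.eq_of_subset_of_card_le Finset.subset_union_left h2
  rw [h3]
  exact Finset.subset_union_right

/-- **Simultaneous exchange** in a base polyhedron. -/
lemma exchange {g : Finset V → ℝ} (h : Data g) {x y : V → ℝ} (tx : Tri x) (ty : Tri y)
    (hx : x ∈ base g) (hy : y ∈ base g) {k : V} (hk : y k < x k) :
    ∃ l, x l < y l ∧ mv x l k ∈ base g ∧ mv y k l ∈ base g := by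
  obtain ⟨D, hD, hkD, hDmin⟩ := exists_dep h hy k
  obtain ⟨U, hU, hkU, hUmax⟩ := exists_codep h hx k
  by_contra hno
  push Not at hno
  have h1 : ∀ l ∈ D \ U, y l ≤ x l := by
    intro l hl
    obtain ⟨hlD, hlU⟩ := Finset.mem_sdiff.1 hl
    by_contra hlt
    push Not at hlt
    have e1 : mv x l k ∈ base g := by
      refine mv_mem h tx hx fun Y hY hlY => ?_
      by_contra hkY
      exact hlU (hUmax Y hY hkY hlY)
    have e2 : mv y k l ∈ base g := mv_mem h ty hy fun Y hY hkY => hDmin Y hY hkY hlD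
    exact hno l hlt e1 e2
  have h2 : ∑ l ∈ D \ U, y l < ∑ l ∈ D \ U, x l :=
    Finset.sum_lt_sum h1 ⟨k, Finset.mem_sdiff.2 ⟨hkD, hkU⟩, hk⟩
  have h3 := h.sub U D
  have h4 := hx.1 (U ∪ D)
  have h5 := hy.1 (U ∩ D)
  unfold Tight at hD hU
  have h6 : ∑ i ∈ U ∪ D, x i = ∑ i ∈ U, x i + ∑ i ∈ D \ U, x i := by
    rw [← Finset.sum_union Finset.disjoint_sdiff, Finset.union_sdiff_self_eq_union]
  have h7 : ∑ i ∈ D, y i = ∑ i ∈ U ∩ D, y i + ∑ i ∈ D \ U, y i := by
    rw [Finset.inter_comm]
    exact (Finset.sum_inter_add_sum_sdiff D U y).symm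
  linarith

/-! ### counting -/

omit [DecidableEq V] in
/-- two functions which agree outside `k` and `l` -/
lemma sum_two [DecidableEq V] {F G : V → ℕ} {k l : V} (hkl : k ≠ l)
    (h : ∀ i, i ≠ k → i ≠ l → F i = G i) :
    ∑ i, F i + G k + G l = ∑ i, G i + F k + F l := by
  have e : ∀ H : V → ℕ, ∑ i, H i = H k + (H l + ∑ i ∈ (Finset.univ.erase k).erase l, H i) := by
    intro H
    rw [← Finset.add_sum_erase Finset.univ H (Finset.mem_univ k), ← Finset.add_sum_erase _ H
      (Finset.mem_erase.2 ⟨hkl.symm, Finset.mem_univ l⟩)]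
  rw [e F, e G]
  have h1 : ∑ i ∈ (Finset.univ.erase k).erase l, F i = ∑ i ∈ (Finset.univ.erase k).erase l, G i := by
    refine Finset.sum_congr rfl fun i hi => ?_
    have h2 := Finset.ne_of_mem_erase hi
    have h3 := Finset.ne_of_mem_erase (Finset.mem_of_mem_erase hi)
    exact h i h3 h2
  omega

open Classical in
/-- number of nonzero coordinates -/
noncomputable def sp (x : V → ℝ) : ℕ := ∑ i, if x i = 0 then 0 else 1

open Classical in
/-- distance of two numbers -/
noncomputable def dd (a b : ℝ) : ℕ := if a = b then 0 else if a = -b then 2 else 1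

/-- distance -/
noncomputable def ds (x y : V → ℝ) : ℕ := ∑ i, dd (x i) (y i)

omit [Fintype V] in
lemma mv_other {x : V → ℝ} {a b i : V} (ha : i ≠ a) (hb : i ≠ b) : mv x a b i = x i := by
  simp [mv, ha, hb]

omit [Fintype V] in
lemma mv_fst {x : V → ℝ} {a b : V} (hab : a ≠ b) : mv x a b a = x a + 1 := by
  simp [mv, hab]

omit [Fintype V] in
lemma mv_snd {x : V → ℝ} {a b : V} (hab : a ≠ b) : mv x a b b = x b - 1 := by
  simp [mv, hab.symm]

omit [Fintype V] in
lemma mv_tri {x : V → ℝ} (hx : Tri x) {a b : V} (hab : a ≠ b) (ha : x a ≠ 1) (hb : x b ≠ -1) :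
    Tri (mv x a b) := by
  intro i
  by_cases h1 : i = a
  · rw [h1, mv_fst hab]
    rcases hx a with h | h | h
    · right; left; rw [h]; norm_num
    · exact absurd h ha
    · left; rw [h]; norm_num
  · by_cases h2 : i = b
    · rw [h2, mv_snd hab]
      rcases hx b with h | h | h
      · right; right; rw [h]; norm_num
      · left; rw [h]; norm_num
      · exact absurd h hb
    · rw [mv_other h1 h2]
      exact hx i

open Classical in
lemma sp_mv (x : V → ℝ) {a b : V} (hab : a ≠ b) :
    sp (mv x a b) + (if x a = 0 then 0 else 1) + (if x b = 0 then 0 else 1) =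
      sp x + (if x a + 1 = 0 then 0 else 1) + (if x b - 1 = 0 then 0 else 1) := by
  have h := sum_two (F := fun i => if mv x a b i = 0 then 0 else 1)
    (G := fun i => if x i = 0 then 0 else 1) hab
    (fun i h1 h2 => by simp only [mv_other h1 h2])
  simp only [mv_fst hab, mv_snd hab] at h
  exact h

lemma ds_mv (x y : V → ℝ) {a b : V} (hab : a ≠ b) :
    ds (mv x a b) y + dd (x a) (y a) + dd (x b) (y b) =
      ds x y + dd (x a + 1) (y a) + dd (x b - 1) (y b) := by
  have h := sum_two (F := fun i => dd (mv x a b i) (y i))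
    (G := fun i => dd (x i) (y i)) hab
    (fun i h1 h2 => by simp only [mv_other h1 h2])
  simp only [mv_fst hab, mv_snd hab] at h
  exact h

omit [DecidableEq V] in
lemma dd_comm (a b : ℝ) : dd a b = dd b a := by
  unfold dd
  have h1 : (a = b) ↔ (b = a) := eq_comm
  have h2 : (a = -b) ↔ (b = -a) := by constructor <;> intro h <;> linarith
  simp only [h1, h2]

omit [DecidableEq V] in
lemma ds_comm (x y : V → ℝ) : ds x y = ds y x := by
  unfold ds
  exact Finset.sum_congr rfl fun i _ => dd_comm _ _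

end Pool.Agent.H70.FMS
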