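import Pool.Agent.H70.FMS.Main

/-!
# Opposite vertices of maximal support
-/

set_option autoImplicit false
set_option maxHeartbeats 4000000

open Finset

namespace Pool.Agent.H70.FMS

open Pool.Agent.H54.Frank Pool.Agent.H56.FT

variable {V : Type} [Fintype V] [DecidableEq V]

/-- if all zero coordinates are separated by tight sets, the point follows a chain -/
lemma chain_of_not_PB {f : Finset V → ℝ} (h : Data f) {x : V → ℝ} (tx : Tri x) (hx : x ∈ base f)
    (hn : ¬ PB f x) : MChain f x ∅ Finset.univ := by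
  have one : ∀ S T, Block f x S T → ∀ a ∈ T \ S, ∀ b ∈ T \ S, a = b := by
    intro S T hbl a ha b hb
    by_contra hne
    exact hn ⟨a, b, hne, hbl.zero h tx hx ha hb hne, hbl.zero h tx hx hb ha (Ne.symm hne),
      fun Y hY => ⟨hbl.sep h hx ha hb Y hY, hbl.sep h hx hb ha Y hY⟩⟩
  have key : ∀ n : ℕ, ∀ S T : Finset V, S ⊆ T → #(T \ S) = n → Tight f x S → Tight f x T →
      MChain f x S T := by
    intro n
    induction n using Nat.strong_induction_on with
    | _ n ih =>
      intro S T hST hn hS hT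
      rcases eq_or_ne S T with rfl | hne
      · exact MChain.refl _
      have hss : S ⊂ T := lt_of_le_of_ne hST hne
      by_cases hmid : ∀ X, S ⊂ X → X ⊂ T → ¬ Tight f x X
      · have hbl : Block f x S T := ⟨hss, hS, hT, hmid⟩
        obtain ⟨a, ha, ha'⟩ := Finset.exists_of_ssubset hss
        have haTS : a ∈ T \ S := Finset.mem_sdiff.2 ⟨ha, ha'⟩
        have h1 : T \ S = {a} :=
          Finset.eq_singleton_iff_unique_mem.2 ⟨haTS, fun b hb => one S T hbl b hb a haTS⟩
        have h3 : T = insert a S := by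
          rw [← Finset.union_sdiff_of_subset hST, h1]
          ext i; simp only [Finset.mem_union, Finset.mem_singleton, Finset.mem_insert]; tauto
        rw [h3]
        refine MChain.step (MChain.refl _) ha' ?_
        rw [← h3]
        unfold Tight at hS hT
        rw [← hS, ← hT, h3, Finset.sum_insert ha']
        ring
      · push Not at hmid
        obtain ⟨X, hX1, hX2, hX⟩ := hmid
        have c1 : #(X \ S) < n := by
          rw [← hn]
          refine Finset.card_lt_card ⟨Finset.sdiff_subset_sdiff hX2.1 (Finset.Subset.refl _),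
            fun hcon => ?_⟩
          obtain ⟨a, ha, ha'⟩ := Finset.exists_of_ssubset hX2
          have : a ∈ T \ S := Finset.mem_sdiff.2 ⟨ha, fun h1 => ha' (hX1.1 h1)⟩
          exact ha' (Finset.mem_sdiff.1 (hcon this)).1
        have c2 : #(T \ X) < n := by
          rw [← hn]
          refine Finset.card_lt_card ⟨Finset.sdiff_subset_sdiff (Finset.Subset.refl _) hX1.1,
            fun hcon => ?_⟩
          obtain ⟨a, ha, ha'⟩ := Finset.exists_of_ssubset hX1
          have : a ∈ T \ S := Finset.mem_sdiff.2 ⟨hX2.1 ha, ha'⟩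
          exact (Finset.mem_sdiff.1 (hcon this)).2 ha
        exact (ih _ c1 S X hX1.1 rfl hS hX).trans (ih _ c2 X T hX2.1 rfl hX hT)
  exact key _ ∅ Finset.univ (Finset.subset_univ _) rfl (tight_empty h.empty x) (tight_univ hx)

omit [Fintype V] in
lemma neg_mv (x : V → ℝ) (a b : V) : -mv x a b = mv (-x) b a := by
  funext i
  simp only [mv, Pi.neg_apply]
  ring

section final

variable {f : Finset V → ℝ} (h : Data f) (hm : Submodular (mm f))
  (H : ∀ x, KP f x → PB f x ∨ PB f (-x))
include h hm H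

/-- exchanged pairs at minimal distance are opposite -/
lemma opp_pair {x y : V → ℝ} (hx : KP f x) (hy : KP f y) (bx : PB f x) (by' : PB f (-y))
    (hmin : ∀ x' y', KP f x' → KP f y' → PB f x' → PB f (-y') → ds x y ≤ ds x' y')
    {k l : V} (hk : y k < x k) (hl : x l < y l) (m1 : mv x l k ∈ base (mm f))
    (m2 : mv y k l ∈ base (mm f)) : x k = -y k ∧ x l = -y l := by
  have hkl : k ≠ l := fun e => by rw [e] at hk; linarith
  have T1 : Tri (mv x l k) := mv_tri hx.tri hkl.symm
    (fun e => by rw [e] at hl; rcases hy.tri l with h1 | h1 | h1 <;> rw [h1] at hl <;> linarith)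
    (fun e => by rw [e] at hk; rcases hy.tri k with h1 | h1 | h1 <;> rw [h1] at hk <;> linarith)
  have T2 : Tri (mv y k l) := mv_tri hy.tri hkl
    (fun e => by rw [e] at hk; rcases hx.tri k with h1 | h1 | h1 <;> rw [h1] at hk <;> linarith)
    (fun e => by rw [e] at hl; rcases hx.tri l with h1 | h1 | h1 <;> rw [h1] at hl <;> linarith)
  have s1 := hx.max _ T1 m1
  have s2 := hy.max _ T2 m2
  have s3 := hx.max _ hy.tri hy.mem
  have s4 := hy.max _ hx.tri hx.mem
  have e1 := sp_mv x hkl.symm
  have e2 := sp_mv y hkl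
  have d1 := ds_mv x y hkl.symm
  have d2 := ds_mv y x hkl
  -- moving `x`
  have P1 : sp (mv x l k) = sp x → ((x k = 1 ∧ x l = 0) ∨ (x k = 0 ∧ x l = -1)) →
      ds x y ≤ ds (mv x l k) y := by
    intro es hc
    have K1 : KP f (mv x l k) := ⟨T1, m1, fun z hz hz' => by rw [es]; exact hx.max z hz hz'⟩
    have b1 : PB f (mv x l k) := (H _ K1).resolve_right (keep h hm hx hkl.symm K1 hc bx)
    exact hmin _ _ K1 hy b1 by'
  have P2 : sp (mv y k l) = sp y → ((y k = -1 ∧ y l = 0) ∨ (y k = 0 ∧ y l = 1)) →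
      ds x y ≤ ds (mv y k l) x := by
    intro es hc
    have K2 : KP f (mv y k l) := ⟨T2, m2, fun z hz hz' => by rw [es]; exact hy.max z hz hz'⟩
    have K3 : KP f (mv (-y) l k) := by rw [← neg_mv]; exact K2.neg h
    have hc' : ((-y) k = 1 ∧ (-y) l = 0) ∨ ((-y) k = 0 ∧ (-y) l = -1) := by
      simp only [Pi.neg_apply]
      rcases hc with ⟨a, b⟩ | ⟨a, b⟩
      · left; rw [a, b]; norm_num
      · right; rw [a, b]; norm_num
    have b2 := keep h hm (hy.neg h) hkl.symm K3 hc' by'
    rw [neg_mv, neg_neg] at b2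
    have b3 : PB f (-mv y k l) := (H _ K2).resolve_left b2
    rw [ds_comm (mv y k l) x]
    exact hmin _ _ hx K2 bx b3
  rw [ds_comm y x] at d2
  rcases hx.tri k with a1 | a1 | a1 <;> rcases hy.tri k with a2 | a2 | a2 <;>
    rcases hx.tri l with a3 | a3 | a3 <;> rcases hy.tri l with a4 | a4 | a4
  all_goals (rw [a1, a2] at hk; rw [a3, a4] at hl)
  all_goals (try (exfalso; norm_num at hk; done))
  all_goals (try (exfalso; norm_num at hl; done))
  all_goals (rw [a1, a3] at e1 P1; rw [a2, a4] at e2 P2; rw [a1, a2, a3, a4] at d1 d2)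
  all_goals (norm_num [dd] at e1 e2 d1 d2 P1 P2; rw [a1, a2, a3, a4])
  all_goals (try (exfalso; omega))
  all_goals norm_num

theorem absurd_min : False := by
  classical
  obtain ⟨z, hz⟩ := exists_KP h
  -- a pair with opposite signs
  obtain ⟨x0, y0, hx0, hy0, bx0, by0⟩ : ∃ x y, KP f x ∧ KP f y ∧ PB f x ∧ PB f (-y) := by
    rcases H z hz with h1 | h1
    · exact ⟨z, -z, hz, hz.neg h, h1, by rw [neg_neg]; exact h1⟩
    · exact ⟨-z, z, hz.neg h, hz, h1, h1⟩
  -- minimal distance
  let s : Set ℕ := {n | ∃ x y, KP f x ∧ KP f y ∧ PB f x ∧ PB f (-y) ∧ ds x y = n}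
  have hs : s.Nonempty := ⟨_, x0, y0, hx0, hy0, bx0, by0, rfl⟩
  obtain ⟨x, y, hx, hy, bx, by', hn⟩ := Nat.sInf_mem hs
  have hmin : ∀ x' y', KP f x' → KP f y' → PB f x' → PB f (-y') → ds x y ≤ ds x' y' :=
    fun x' y' h1 h2 h3 h4 => hn ▸ Nat.sInf_le ⟨x', y', h1, h2, h3, h4, rfl⟩
  have hg := mm_data h hm
  have opp : ∀ x y : V → ℝ, KP f x → KP f y → PB f x → PB f (-y) →
      (∀ x' y', KP f x' → KP f y' → PB f x' → PB f (-y') → ds x y ≤ ds x' y') →
      ∀ k, x k ≠ y k → x k = -y k := by
    intro x y hx hy bx by' hmin k hk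
    rcases lt_or_gt_of_ne hk with h1 | h1
    · obtain ⟨l, hl, m1, m2⟩ := exchange hg hy.tri hx.tri hy.mem hx.mem h1
      exact (opp_pair h hm H hx hy bx by' hmin hl h1 m2 m1).2
    · obtain ⟨l, hl, m1, m2⟩ := exchange hg hx.tri hy.tri hx.mem hy.mem h1
      exact (opp_pair h hm H hx hy bx by' hmin h1 hl m1 m2).1
  have o1 := opp x y hx hy bx by' hmin
  have zer : ∀ k, x k = 0 ↔ y k = 0 := by
    intro k
    by_cases h1 : x k = y k
    · rw [h1]
    · rw [o1 k h1, neg_eq_zero]
  -- a movable positive coordinate of `x` at which `y` is negative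
  obtain ⟨j, c, xj, xc, hmv, yj⟩ : ∃ j c, x j = 1 ∧ x c = 0 ∧ mv x c j ∈ base (mm f) ∧
      y j ≠ 1 := by
    by_contra hno
    push Not at hno
    obtain ⟨i, i', hii', hi, hi', hns⟩ := id by'
    simp only [Pi.neg_apply, neg_eq_zero] at hi hi'
    set N : Finset V := Finset.univ.filter fun k => y k = 1 with hN
    set A : Finset V := Finset.univ.filter fun k => x k = 1 ∧ ∃ c, x c = 0 ∧
      mv x c k ∈ base (mm f) with hA
    have hAN : A ⊆ N := by
      intro k hk
      obtain ⟨-, h1, c, h2, h3⟩ := Finset.mem_filter.1 hk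
      exact Finset.mem_filter.2 ⟨Finset.mem_univ _, hno k c h1 h2 h3⟩
    have hiN : i ∉ N := fun h1 => by
      have := (Finset.mem_filter.1 h1).2
      rw [hi] at this; norm_num at this
    have hi'N : i' ∉ N := fun h1 => by
      have := (Finset.mem_filter.1 h1).2
      rw [hi'] at this; norm_num at this
    have hiA : i ∉ A := fun h1 => hiN (hAN h1)
    -- the set `(insert i A)ᶜ` is tight for `-x`
    have t1 : Tight f (-x) (insert i A)ᶜ := by
      refine mov_neg h hm hx bx ?_ ?_
      · intro k c h1 h2 h3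
        exact Finset.mem_insert_of_mem (Finset.mem_filter.2 ⟨Finset.mem_univ _, h1, c, h2, h3⟩)
      · intro k hk
        rcases Finset.mem_insert.1 hk with rfl | h1
        · exact Or.inl ((zer _).2 hi)
        · exact Or.inr (Finset.mem_filter.1 h1).2
    have v1 : f (insert i A)ᶜ = #A := by
      unfold Tight at t1
      rw [← t1, sum_compl' _ _ (by simp [sum_zero_of_mm h hx.mem]), Finset.sum_insert hiA]
      have h1 : ∑ k ∈ A, (-x) k = -#A := by
        rw [Finset.sum_congr rfl (g := fun _ => (-1 : ℝ)) fun k hk => by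
          simp [(Finset.mem_filter.1 hk).2.1]]
        simp
      rw [h1]
      simp [(zer _).2 hi]
    -- the set `(insert i N)ᶜ` is not tight for `-y`
    have t2 : ¬ Tight f (-y) (insert i N)ᶜ := by
      intro h1
      have h2 := hns _ h1
      simp [hi'N, hii'.symm] at h2
    have mem2 := ((mem_mm h).1 hy.mem).2
    have v2 := slack h (tri_neg hy.tri) mem2 t2
    have v3 : ∑ k ∈ (insert i N)ᶜ, (-y) k = #N := by
      rw [sum_compl' _ _ (by simp [sum_zero_of_mm h hy.mem]), Finset.sum_insert hiN]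
      have h1 : ∑ k ∈ N, (-y) k = -#N := by
        rw [Finset.sum_congr rfl (g := fun _ => (-1 : ℝ)) fun k hk => by
          simp [(Finset.mem_filter.1 hk).2]]
        simp
      rw [h1]
      simp [hi]
    rw [v3] at v2
    have sub : (insert i N)ᶜ ⊆ (insert i A)ᶜ :=
      Finset.compl_subset_compl.2 (Finset.insert_subset_insert _ hAN)
    have up := (h.up sub).2
    have e : (insert i A)ᶜ \ (insert i N)ᶜ = N \ A := by
      ext k
      simp only [Finset.mem_sdiff, Finset.mem_compl, Finset.mem_insert, not_or]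
      constructor
      · rintro ⟨⟨h1, h2⟩, h3⟩
        exact ⟨by_contra fun h4 => h3 ⟨h1, h4⟩, h2⟩
      · rintro ⟨h1, h2⟩
        exact ⟨⟨fun h3 => hiN (h3 ▸ h1), h2⟩, fun h4 => h4.2 h1⟩
    rw [e, v1] at up
    have card : (#(N \ A) : ℝ) = #N - #A := by
      have := Finset.card_sdiff_add_card_eq_card hAN
      have h2 : ((#(N \ A) + #A : ℕ) : ℝ) = (#N : ℝ) := by exact_mod_cast this
      push_cast at h2
      linarith
    rw [card] at up
    linarith
  have yj' : y j = -1 := by
    have h1 : x j ≠ y j := fun e => yj (e ▸ xj)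
    have h2 := o1 j h1
    rw [xj] at h2
    linarith
  have yc : y c = 0 := (zer c).1 xc
  have hcj : c ≠ j := fun e => by rw [e, xj] at xc; norm_num at xc
  -- move
  have T1 : Tri (mv x c j) := mv_tri hx.tri hcj (by rw [xc]; norm_num) (by rw [xj]; norm_num)
  have e1 := sp_mv x hcj
  rw [xc, xj] at e1
  norm_num at e1
  have K1 : KP f (mv x c j) := ⟨T1, hmv, fun z hz hz' => by rw [e1]; exact hx.max z hz hz'⟩
  have b1 : PB f (mv x c j) :=
    (H _ K1).resolve_right (keep h hm hx hcj K1 (Or.inl ⟨xj, xc⟩) bx)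
  have d1 := ds_mv x y hcj
  rw [xc, xj, yc, yj'] at d1
  norm_num [dd] at d1
  have o2 := opp _ y K1 hy b1 by' (fun x' y' h1 h2 h3 h4 => by
    rw [d1]; exact hmin x' y' h1 h2 h3 h4) c (by rw [mv_fst hcj, xc, yc]; norm_num)
  rw [mv_fst hcj, xc, yc] at o2
  norm_num at o2

end final

/-- **Frank's statement if `min (f X) (f Xᶜ)` is submodular**, with a point of maximal support. -/
theorem opp_of_minsub {f : Finset V → ℝ} (h : Data f) (hm : Submodular (mm f)) :
    ∃ x, KP f x ∧ MChain f x ∅ Finset.univ ∧ MChain f (-x) ∅ Finset.univ := by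
  by_contra hno
  refine absurd_min h hm fun x hx => ?_
  by_contra hb
  rw [not_or] at hb
  obtain ⟨m1, m2⟩ := (mem_mm h).1 hx.mem
  exact hno ⟨x, hx, chain_of_not_PB h hx.tri m1 hb.1, chain_of_not_PB h (tri_neg hx.tri) m2 hb.2⟩

end Pool.Agent.H70.FMS
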