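import Pool.Agent.H70.FMS.Final
import Pool.Agent.H56.FT.Crit

/-!
# The local version, with twins
-/

set_option autoImplicit false
set_option maxHeartbeats 4000000

open Finset

namespace Pool.Agent.H70.FMS

open Pool.Agent.H54.Frank Pool.Agent.H56.FT

variable {V : Type} [Fintype V] [DecidableEq V]

lemma opposite_of_minsub {f : Finset V → ℝ} (h : Data f) (hm : Submodular (mm f)) :
    Opposite f := by
  obtain ⟨x, -, h1, h2⟩ := opp_of_minsub h hm
  exact ⟨x, h1.extreme h.sub h.empty, h2.extreme h.sub h.empty⟩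

/-- local criterion -/
theorem opp_of_local {ι : Type} [DecidableEq ι] {f : Finset V → ℝ} (h : Data f) {c : V → ι}
    (hc : Twins f c)
    (H : ∀ (x : V → ℝ) (S T : Finset V), Bal f c x → Block f x S T → (∀ i ∈ T \ S, x i = 0) →
      Set.InjOn c (T \ S : Finset V) →
      (∀ i ∈ T \ S, Odd #(Finset.univ.filter fun j => c j = c i)) →
      Submodular (mm (minor f S T)) ∨ Opposite (minor f S T)) :
    Opp f ∅ Finset.univ := by
  obtain ⟨x, hx, hmax⟩ := exists_max h c
  refine opp_of_blocks h hc hx hmax fun S T hb h0 hcard => ?_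
  have hd := loc_data h hx.2.1 hb.ss.1 hb.lo hb.hi h0
  have hu : ∀ i ∈ T \ S, Uniq c x i := by
    intro i hi
    obtain ⟨b, hb1, hb2⟩ := Finset.exists_mem_ne hcard i
    exact block_unique h hc hx hmax hb hi hb1 hb2.symm
  have hinj : Set.InjOn c (T \ S : Finset V) := by
    intro a ha b hb' hab
    by_contra hne
    exact (hu a ha).2 b hab.symm (Ne.symm hne) (hu b hb').1
  have hodd : ∀ i ∈ T \ S, Odd #(Finset.univ.filter fun j => c j = c i) :=
    fun i hi => block_odd hx (hu i hi).1 (hu i hi).2
  rcases H x S T hx hb h0 hinj hodd with h1 | h1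
  · exact opp_of_minor hb.ss.1 hd (opposite_of_minsub (minor_data hb.ss.1 hd) h1)
  · exact opp_of_minor hb.ss.1 hd h1

/-- the global statement with maximal support -/
theorem max_support {f : Finset V → ℝ} (h : Data f) (hm : Submodular (mm f)) :
    ∃ v ∈ Set.extremePoints ℝ (base f), -v ∈ Set.extremePoints ℝ (base f) ∧
      ∀ x ∈ base f, -x ∈ base f → (∀ i, ∃ n : ℤ, x i = n) →
        #(Finset.univ.filter fun i => x i ≠ 0) ≤ #(Finset.univ.filter fun i => v i ≠ 0) := by
  classical
  obtain ⟨v, hv, h1, h2⟩ := opp_of_minsub h hm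
  have card : ∀ x : V → ℝ, #(Finset.univ.filter fun i => x i ≠ 0) = sp x := by
    intro x
    unfold sp
    rw [Finset.card_filter]
    refine Finset.sum_congr rfl fun i _ => ?_
    by_cases hi : x i = 0 <;> simp [hi]
  refine ⟨v, h1.extreme h.sub h.empty, h2.extreme h.sub h.empty, fun x hx hx' hint => ?_⟩
  have tx : Tri x := by
    intro i
    obtain ⟨n, hn⟩ := hint i
    have a1 := coord_le h hx i
    have a2 := le_coord h hx i
    rw [hn] at a1 a2 ⊢
    have b1 : n ≤ 1 := by exact_mod_cast a1
    have b2 : -1 ≤ n := by exact_mod_cast a2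
    have : n = 0 ∨ n = 1 ∨ n = -1 := by omega
    rcases this with rfl | rfl | rfl
    · left; norm_num
    · right; left; norm_num
    · right; right; norm_num
  rw [card, card]
  exact hv.max x tx ((mem_mm h).2 ⟨hx, hx'⟩)

end Pool.Agent.H70.FMS
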