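import Pool.Agent.H70.FMS.Core

/-!
# The theorem for submodular `min (f X) (f Xᶜ)`
-/

set_option autoImplicit false
set_option maxHeartbeats 4000000

open Finset

namespace Pool.Agent.H70.FMS

open Pool.Agent.H54.Frank Pool.Agent.H56.FT

variable {V : Type} [Fintype V] [DecidableEq V]

/-- integral points of `B(f) ∩ (-B(f))` with a maximal number of nonzero coordinates -/
structure KP (f : Finset V → ℝ) (x : V → ℝ) : Prop where
  tri : Tri x
  mem : x ∈ base (mm f)
  max : ∀ y, Tri y → y ∈ base (mm f) → sp y ≤ sp x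

/-- two zero coordinates of `x` are not separated by tight sets -/
def PB (f : Finset V → ℝ) (x : V → ℝ) : Prop :=
  ∃ i j, i ≠ j ∧ x i = 0 ∧ x j = 0 ∧ ∀ Y, Tight f x Y → (i ∈ Y ↔ j ∈ Y)

omit [DecidableEq V] in
lemma sp_neg (x : V → ℝ) : sp (-x) = sp x := by
  unfold sp
  refine Finset.sum_congr rfl fun i _ => ?_
  simp [neg_eq_zero]

omit [Fintype V] [DecidableEq V] in
lemma tri_neg {x : V → ℝ} (hx : Tri x) : Tri (-x) := by
  intro i
  rcases hx i with h | h | h
  · left; simp [h]
  · right; right; simp [h]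
  · right; left; simp [h]

lemma mm_neg {f : Finset V → ℝ} (h : Data f) {x : V → ℝ} (hx : x ∈ base (mm f)) :
    -x ∈ base (mm f) := by
  rw [mem_mm h] at hx ⊢
  rw [neg_neg]
  exact ⟨hx.2, hx.1⟩

lemma KP.neg {f : Finset V → ℝ} (h : Data f) {x : V → ℝ} (hx : KP f x) : KP f (-x) where
  tri := tri_neg hx.tri
  mem := mm_neg h hx.mem
  max y hy hy' := by rw [sp_neg]; exact hx.max y hy hy'

lemma exists_KP {f : Finset V → ℝ} (h : Data f) : ∃ x, KP f x := by
  classical
  set s : Set ℕ := {n | ∃ x : V → ℝ, Tri x ∧ x ∈ base (mm f) ∧ sp x = n} with hs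
  have hne : s.Nonempty := by
    refine ⟨_, 0, fun i => Or.inl rfl, ?_, rfl⟩
    refine ⟨fun X => ?_, ?_⟩
    · have h1 : ∑ i ∈ X, (0 : V → ℝ) i = 0 := Finset.sum_eq_zero fun _ _ => rfl
      rw [h1]
      exact le_min (h.nonneg X) (h.nonneg Xᶜ)
    · simp [mm, h.univ, h.empty]
  have hbd : BddAbove s := by
    refine ⟨Fintype.card V, ?_⟩
    rintro n ⟨x, -, -, rfl⟩
    unfold sp
    calc (∑ i : V, if x i = 0 then 0 else 1) ≤ ∑ _i : V, 1 :=
          Finset.sum_le_sum fun i _ => by split_ifs <;> omega
      _ = Fintype.card V := by simp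
  obtain ⟨x, hx1, hx2, hn⟩ := Nat.sSup_mem hne hbd
  exact ⟨x, hx1, hx2, fun y hy hy' => hn ▸ le_csSup hbd ⟨y, hy, hy', rfl⟩⟩

lemma sum_zero_of_mm {f : Finset V → ℝ} (h : Data f) {x : V → ℝ} (hx : x ∈ base (mm f)) :
    ∑ i, x i = 0 := by
  have := hx.2
  rw [this, mm, Finset.compl_univ, h.univ, h.empty, min_self]

/-- a tight set of `mm f` is tight for `x` or its complement is tight for `-x` -/
lemma dich {f : Finset V → ℝ} (h : Data f) {x : V → ℝ} (hx : x ∈ base (mm f)) {X : Finset V}
    (ht : Tight (mm f) x X) : Tight f x X ∨ Tight f (-x) Xᶜ := by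
  have hs := sum_zero_of_mm h hx
  unfold Tight mm at ht
  unfold Tight
  rcases min_choice (f X) (f Xᶜ) with h1 | h1
  · left
    rw [ht, h1]
  · right
    rw [h1] at ht
    simp only [Pi.neg_apply, Finset.sum_neg_distrib]
    rw [sum_compl' x X hs, neg_neg, ht]

/-- general form of the covering lemma -/
lemma cover {f : Finset V → ℝ} (h : Data f) {x : V → ℝ} (hx : x ∈ base (mm f)) {i j : V}
    (hij : i ≠ j) (hns : ∀ Y, Tight f x Y → (i ∈ Y ↔ j ∈ Y)) (C : Finset V → Prop)
    (hC : ∀ X, C X → Tight (mm f) x X) (ci : ∀ X, C X → C (insert i X) ∧ C (insert j X))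
    (ce : ∀ X, C X → C (X.erase i) ∧ C (X.erase j)) :
    ∀ X, C X → Tight f (-x) Xᶜ := by
  have hb := ((mem_mm h).1 hx).2
  have key : ∀ X, C X → ¬ (i ∈ X ↔ j ∈ X) → Tight f (-x) Xᶜ := fun X hX hsep =>
    (dich h hx (hC X hX)).resolve_left fun h1 => hsep (hns X h1)
  intro X hX
  by_cases h1 : i ∈ X
  · by_cases h2 : j ∈ X
    · have h3 := key _ (ce X hX).1 (by simp [h2, hij.symm])
      have h4 := key _ (ce X hX).2 (by simp [h1, hij])
      have h5 := Tight.inter h.sub hb h3 h4
      have e : (X.erase i)ᶜ ∩ (X.erase j)ᶜ = Xᶜ := by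
        ext k
        simp only [Finset.mem_inter, Finset.mem_compl, Finset.mem_erase, not_and, ne_eq]
        constructor
        · rintro ⟨h6, h7⟩ h8
          by_cases hki : k = i
          · exact h7 (fun h9 => hij (hki ▸ h9)) h8
          · exact h6 hki h8
        · intro h6
          exact ⟨fun _ => h6, fun _ => h6⟩
      rwa [e] at h5
    · exact key X hX (by simp [h1, h2])
  · by_cases h2 : j ∈ X
    · exact key X hX (by simp [h1, h2])
    · have h3 := key _ (ci X hX).1 (by simp [h2, hij.symm])
      have h4 := key _ (ci X hX).2 (by simp [h1, hij])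
      have h5 := Tight.union h.sub hb h3 h4
      have e : (insert i X)ᶜ ∪ (insert j X)ᶜ = Xᶜ := by
        ext k
        simp only [Finset.mem_union, Finset.mem_compl, Finset.mem_insert, not_or]
        constructor
        · rintro (⟨-, h6⟩ | ⟨-, h6⟩) <;> exact h6
        · intro h6
          by_cases hki : k = i
          · right; exact ⟨fun h9 => hij (hki ▸ h9), h6⟩
          · left; exact ⟨hki, h6⟩
      rwa [e] at h5

section max

variable {f : Finset V → ℝ} (h : Data f) (hm : Submodular (mm f))
include h hm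

lemma tight_pos {x : V → ℝ} (hx : x ∈ base (mm f)) {W : Finset V} (hW : ∀ i ∈ W, x i = 1) :
    Tight (mm f) x W := by
  have hg := mm_data h hm
  induction W using Finset.induction_on with
  | empty => exact tight_empty hg.empty x
  | insert i W hi ih =>
    have h1 := ih fun k hk => hW k (Finset.mem_insert_of_mem hk)
    have h2 : Tight (mm f) x {i} := by
      have h3 := hx.1 {i}
      have h4 := hg.marg ∅ i (Finset.notMem_empty _)
      rw [hg.empty, show insert i (∅ : Finset V) = {i} from rfl] at h4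
      have h5 := hW i (Finset.mem_insert_self _ _)
      unfold Tight
      rw [Finset.sum_singleton] at h3 ⊢
      rcases h4 with h4 | h4 | h4 <;> linarith
    rw [Finset.insert_eq]
    exact Tight.union hm hx h2 h1

omit h hm in
lemma mm_compl (X : Finset V) : mm f Xᶜ = mm f X := by
  unfold mm
  rw [compl_compl, min_comm]

omit hm in
lemma tight_compl {x : V → ℝ} (hx : x ∈ base (mm f)) {X : Finset V} (ht : Tight (mm f) (-x) X) :
    Tight (mm f) x Xᶜ := by
  unfold Tight at ht ⊢
  rw [mm_compl, sum_compl' x X (sum_zero_of_mm h hx), ← ht]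
  simp

lemma tight_neg {x : V → ℝ} (hx : x ∈ base (mm f)) {W : Finset V} (hW : ∀ i ∈ W, x i = -1) :
    Tight (mm f) x Wᶜ := by
  refine tight_compl h hx (tight_pos h hm (mm_neg h hx) fun i hi => ?_)
  simp [hW i hi]

/-- the elements of the smallest tight set containing a zero coordinate -/
lemma dep_pos {x : V → ℝ} (hx : KP f x) {c : V} (hc : x c = 0) {D : Finset V}
    (hmin : ∀ Y, Tight (mm f) x Y → c ∈ Y → D ⊆ Y) :
    ∀ l ∈ D, l ≠ c → x l = 1 ∧ mv x c l ∈ base (mm f) := by
  have hg := mm_data h hm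
  intro l hl hlc
  have h1 : mv x c l ∈ base (mm f) := mv_mem hg hx.tri hx.mem fun Y hY hcY => hmin Y hY hcY hl
  refine ⟨?_, h1⟩
  rcases hx.tri l with h2 | h2 | h2
  · exfalso
    have h3 := hx.max _ (mv_tri hx.tri (Ne.symm hlc) (by rw [hc]; norm_num)
      (by rw [h2]; norm_num)) h1
    have h4 := sp_mv x (Ne.symm hlc)
    rw [hc, h2] at h4
    norm_num at h4
    omega
  · exact h2
  · exfalso
    have h3 := hmin {l}ᶜ (tight_neg h hm hx.mem fun i hi => by
      rw [Finset.mem_singleton.1 hi]; exact h2) (by simpa using Ne.symm hlc)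
    have h4 := h3 hl
    simp at h4

/-- at a point of maximal support all sets between the positive part and the complement of the
negative part are tight -/
lemma tight_mid {x : V → ℝ} (hx : KP f x) {X : Finset V} (h1 : ∀ i, x i = 1 → i ∈ X)
    (h2 : ∀ i, x i = -1 → i ∉ X) : Tight (mm f) x X := by
  classical
  have hg := mm_data h hm
  set A : Finset V := Finset.univ.filter fun i => x i = 1 with hA
  have tA : Tight (mm f) x A := tight_pos h hm hx.mem fun i hi => (Finset.mem_filter.1 hi).2
  have key : ∀ W : Finset V, (∀ c ∈ W, x c ≠ -1) → Tight (mm f) x (A ∪ W) := by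
    intro W
    induction W using Finset.induction_on with
    | empty => intro _; rw [Finset.union_empty]; exact tA
    | insert c W _ ih =>
      intro hW
      have h3 := ih fun k hk => hW k (Finset.mem_insert_of_mem hk)
      rcases hx.tri c with hc | hc | hc
      · obtain ⟨D, hD, hcD, hmin⟩ := exists_dep hg hx.mem c
        have h4 := dep_pos h hm hx hc hmin
        have h5 := Tight.union hm hx.mem h3 hD
        have e : A ∪ insert c W = A ∪ W ∪ D := by
          ext k
          simp only [Finset.mem_union, Finset.mem_insert]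
          constructor
          · rintro (h6 | rfl | h6)
            · exact Or.inl (Or.inl h6)
            · exact Or.inr hcD
            · exact Or.inl (Or.inr h6)
          · rintro ((h6 | h6) | h6)
            · exact Or.inl h6
            · exact Or.inr (Or.inr h6)
            · by_cases hk : k = c
              · exact Or.inr (Or.inl hk)
              · exact Or.inl (Finset.mem_filter.2 ⟨Finset.mem_univ _, (h4 k h6 hk).1⟩)
        rw [e]
        exact h5
      · have e : A ∪ insert c W = A ∪ W := by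
          ext k
          simp only [Finset.mem_union, Finset.mem_insert]
          constructor
          · rintro (h6 | rfl | h6)
            · exact Or.inl h6
            · exact Or.inl (Finset.mem_filter.2 ⟨Finset.mem_univ _, hc⟩)
            · exact Or.inr h6
          · rintro (h6 | h6)
            · exact Or.inl h6
            · exact Or.inr (Or.inr h6)
        rw [e]
        exact h3
      · exact absurd hc (hW c (Finset.mem_insert_self _ _))
  have e : A ∪ X = X := by
    rw [Finset.union_eq_right]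
    exact fun i hi => h1 i (Finset.mem_filter.1 hi).2
  rw [← e]
  exact key X fun c hc h3 => h2 c h3 hc

/-- movable positive coordinates -/
lemma tight_mov {x : V → ℝ} (hx : KP f x) {X : Finset V}
    (h1 : ∀ i c, x i = 1 → x c = 0 → mv x c i ∈ base (mm f) → i ∈ X)
    (h2 : ∀ i ∈ X, x i = 0 ∨ (x i = 1 ∧ ∃ c, x c = 0 ∧ mv x c i ∈ base (mm f))) :
    Tight (mm f) x X := by
  classical
  have hg := mm_data h hm
  set A : Finset V := Finset.univ.filter fun i => x i = 1 ∧ ∃ c, x c = 0 ∧ mv x c i ∈ base (mm f)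
    with hA
  have tA : Tight (mm f) x A := tight_pos h hm hx.mem fun i hi => (Finset.mem_filter.1 hi).2.1
  have key : ∀ W : Finset V, (∀ c ∈ W, x c = 0 ∨ c ∈ A) → Tight (mm f) x (A ∪ W) := by
    intro W
    induction W using Finset.induction_on with
    | empty => intro _; rw [Finset.union_empty]; exact tA
    | insert c W _ ih =>
      intro hW
      have h3 := ih fun k hk => hW k (Finset.mem_insert_of_mem hk)
      rcases hW c (Finset.mem_insert_self _ _) with hc | hc
      · obtain ⟨D, hD, hcD, hmin⟩ := exists_dep hg hx.mem c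
        have h4 := dep_pos h hm hx hc hmin
        have h5 := Tight.union hm hx.mem h3 hD
        have e : A ∪ insert c W = A ∪ W ∪ D := by
          ext k
          simp only [Finset.mem_union, Finset.mem_insert]
          constructor
          · rintro (h6 | rfl | h6)
            · exact Or.inl (Or.inl h6)
            · exact Or.inr hcD
            · exact Or.inl (Or.inr h6)
          · rintro ((h6 | h6) | h6)
            · exact Or.inl h6
            · exact Or.inr (Or.inr h6)
            · by_cases hk : k = c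
              · exact Or.inr (Or.inl hk)
              · exact Or.inl (Finset.mem_filter.2
                  ⟨Finset.mem_univ _, (h4 k h6 hk).1, c, hc, (h4 k h6 hk).2⟩)
        rw [e]
        exact h5
      · have e : A ∪ insert c W = A ∪ W := by
          ext k
          simp only [Finset.mem_union, Finset.mem_insert]
          constructor
          · rintro (h6 | rfl | h6)
            · exact Or.inl h6
            · exact Or.inl hc
            · exact Or.inr h6
          · rintro (h6 | h6)
            · exact Or.inl h6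
            · exact Or.inr (Or.inr h6)
        rw [e]
        exact h3
  have e : A ∪ X = X := by
    rw [Finset.union_eq_right]
    intro i hi
    obtain ⟨-, h3, c, h4, h5⟩ := Finset.mem_filter.1 hi
    exact h1 i c h3 h4 h5
  rw [← e]
  refine key X fun c hc => ?_
  rcases h2 c hc with h3 | h3
  · exact Or.inl h3
  · exact Or.inr (Finset.mem_filter.2 ⟨Finset.mem_univ _, h3⟩)

/-- if `x` is bad, all complements of sets in the middle are tight for `-x` -/
lemma mid_neg {x : V → ℝ} (hx : KP f x) (hb : PB f x) {X : Finset V} (h1 : ∀ i, x i = 1 → i ∈ X)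
    (h2 : ∀ i, x i = -1 → i ∉ X) : Tight f (-x) Xᶜ := by
  obtain ⟨i, j, hij, hi, hj, hns⟩ := hb
  refine cover h hx.mem hij hns
    (fun X => (∀ i, x i = 1 → i ∈ X) ∧ ∀ i, x i = -1 → i ∉ X)
    (fun X hX => tight_mid h hm hx hX.1 hX.2) ?_ ?_ X ⟨h1, h2⟩
  · rintro X ⟨a, b⟩
    refine ⟨⟨fun k hk => Finset.mem_insert_of_mem (a k hk), fun k hk h3 => ?_⟩,
      ⟨fun k hk => Finset.mem_insert_of_mem (a k hk), fun k hk h3 => ?_⟩⟩
    · rcases Finset.mem_insert.1 h3 with rfl | h4
      · rw [hi] at hk; norm_num at hk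
      · exact b k hk h4
    · rcases Finset.mem_insert.1 h3 with rfl | h4
      · rw [hj] at hk; norm_num at hk
      · exact b k hk h4
  · rintro X ⟨a, b⟩
    refine ⟨⟨fun k hk => Finset.mem_erase.2 ⟨fun h3 => ?_, a k hk⟩,
      fun k hk h3 => b k hk (Finset.mem_of_mem_erase h3)⟩,
      ⟨fun k hk => Finset.mem_erase.2 ⟨fun h3 => ?_, a k hk⟩,
      fun k hk h3 => b k hk (Finset.mem_of_mem_erase h3)⟩⟩
    · rw [h3, hi] at hk; norm_num at hk
    · rw [h3, hj] at hk; norm_num at hk

/-- the same for the movable coordinates -/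
lemma mov_neg {x : V → ℝ} (hx : KP f x) (hb : PB f x) {X : Finset V}
    (h1 : ∀ i c, x i = 1 → x c = 0 → mv x c i ∈ base (mm f) → i ∈ X)
    (h2 : ∀ i ∈ X, x i = 0 ∨ (x i = 1 ∧ ∃ c, x c = 0 ∧ mv x c i ∈ base (mm f))) :
    Tight f (-x) Xᶜ := by
  obtain ⟨i, j, hij, hi, hj, hns⟩ := hb
  refine cover h hx.mem hij hns
    (fun X => (∀ i c, x i = 1 → x c = 0 → mv x c i ∈ base (mm f) → i ∈ X) ∧
      ∀ i ∈ X, x i = 0 ∨ (x i = 1 ∧ ∃ c, x c = 0 ∧ mv x c i ∈ base (mm f)))
    (fun X hX => tight_mov h hm hx hX.1 hX.2) ?_ ?_ X ⟨h1, h2⟩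
  · rintro X ⟨a, b⟩
    refine ⟨⟨fun k c hk hc hk' => Finset.mem_insert_of_mem (a k c hk hc hk'), fun k hk => ?_⟩,
      ⟨fun k c hk hc hk' => Finset.mem_insert_of_mem (a k c hk hc hk'), fun k hk => ?_⟩⟩
    · rcases Finset.mem_insert.1 hk with rfl | h4
      · exact Or.inl hi
      · exact b k h4
    · rcases Finset.mem_insert.1 hk with rfl | h4
      · exact Or.inl hj
      · exact b k h4
  · rintro X ⟨a, b⟩
    refine ⟨⟨fun k c hk hc hk' => Finset.mem_erase.2 ⟨fun h3 => ?_, a k c hk hc hk'⟩,
      fun k hk => b k (Finset.mem_of_mem_erase hk)⟩,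
      ⟨fun k c hk hc hk' => Finset.mem_erase.2 ⟨fun h3 => ?_, a k c hk hc hk'⟩,
      fun k hk => b k (Finset.mem_of_mem_erase hk)⟩⟩
    · rw [h3, hi] at hk; norm_num at hk
    · rw [h3, hj] at hk; norm_num at hk

omit [Fintype V] h hm in
lemma sum_mv_eq (x : V → ℝ) {a b : V} {Y : Finset V} (ha : a ∉ Y) (hb : b ∉ Y) :
    ∑ i ∈ Y, mv x a b i = ∑ i ∈ Y, x i := by
  rw [sum_mv]
  simp [ha, hb]

/-- a single exchange does not change the sign -/
lemma keep {x : V → ℝ} (hx : KP f x) {a b : V} (hab : a ≠ b) (hx' : KP f (mv x a b))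
    (hc : (x b = 1 ∧ x a = 0) ∨ (x b = 0 ∧ x a = -1)) (hb : PB f x) :
    ¬ PB f (-mv x a b) := by
  classical
  intro hb'
  rcases hc with ⟨xb, xa⟩ | ⟨xb, xa⟩
  · -- the pair of `-x'`
    obtain ⟨i, j, hij, hi, hj, hns⟩ := hb'
    have e1 : mv x a b a = 1 := by rw [mv_fst hab, xa]; norm_num
    have e2 : mv x a b b = 0 := by rw [mv_snd hab, xb]; norm_num
    simp only [Pi.neg_apply, neg_eq_zero] at hi hj
    obtain ⟨c, d, hcd, hc, hd, hcb, hns'⟩ : ∃ c d, c ≠ d ∧ mv x a b c = 0 ∧ mv x a b d = 0 ∧
        c ≠ b ∧ ∀ Y, Tight f (-mv x a b) Y → (c ∈ Y ↔ d ∈ Y) := by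
      by_cases h1 : i = b
      · exact ⟨j, i, hij.symm, hj, hi, fun h2 => hij (h1.trans h2.symm), fun Y hY => (hns Y hY).symm⟩
      · exact ⟨i, j, hij, hi, hj, h1, hns⟩
    have hca : c ≠ a := fun h1 => by rw [h1, e1] at hc; norm_num at hc
    have xc : x c = 0 := by
      have h1 := hc
      rw [mv_other hca hcb] at h1
      exact h1
    have hda : d ≠ a := fun h1 => by rw [h1, e1] at hd; norm_num at hd
    have xd : x d ≠ -1 := by
      intro h1
      by_cases h2 : d = b
      · rw [h2, xb] at h1; norm_num at h1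
      · rw [mv_other hda h2, h1] at hd; norm_num at hd
    set Y : Finset V := Finset.univ.filter fun i => x i = -1 ∨ i = c with hY
    have haY : a ∉ Y := by
      rw [hY, Finset.mem_filter]
      rintro ⟨-, h1 | h1⟩
      · rw [xa] at h1; norm_num at h1
      · exact hca h1.symm
    have hbY : b ∉ Y := by
      rw [hY, Finset.mem_filter]
      rintro ⟨-, h1 | h1⟩
      · rw [xb] at h1; norm_num at h1
      · exact hcb h1.symm
    have h1 : Tight f (-x) Yᶜᶜ := by
      refine mid_neg h hm hx hb ?_ ?_
      · intro k hk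
        rw [Finset.mem_compl, hY, Finset.mem_filter]
        rintro ⟨-, h2 | h2⟩
        · rw [hk] at h2; norm_num at h2
        · rw [h2, xc] at hk; norm_num at hk
      · intro k hk
        rw [Finset.mem_compl, not_not, hY, Finset.mem_filter]
        exact ⟨Finset.mem_univ _, Or.inl hk⟩
    rw [compl_compl] at h1
    have h2 : Tight f (-mv x a b) Y := by
      unfold Tight at h1 ⊢
      rw [← h1]
      simp only [Pi.neg_apply, Finset.sum_neg_distrib]
      rw [sum_mv_eq x haY hbY]
    have h3 := (hns' Y h2).1 (Finset.mem_filter.2 ⟨Finset.mem_univ _, Or.inr rfl⟩)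
    rcases (Finset.mem_filter.1 h3).2 with h4 | h4
    · exact xd h4
    · exact hcd h4.symm
  · -- the pair of `x`
    have hb0 := hb
    obtain ⟨i, j, hij, hi, hj, hns⟩ := hb
    have e1 : mv x a b a = 0 := by rw [mv_fst hab, xa]; norm_num
    have e2 : mv x a b b = -1 := by rw [mv_snd hab, xb]; norm_num
    obtain ⟨c, d, hcd, xc, xd, hcb, hns'⟩ : ∃ c d, c ≠ d ∧ x c = 0 ∧ x d = 0 ∧
        c ≠ b ∧ ∀ Y, Tight f x Y → (c ∈ Y ↔ d ∈ Y) := by
      by_cases h1 : i = b
      · exact ⟨j, i, hij.symm, hj, hi, fun h2 => hij (h1.trans h2.symm), fun Y hY => (hns Y hY).symm⟩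
      · exact ⟨i, j, hij, hi, hj, h1, hns⟩
    have hca : c ≠ a := fun h1 => by rw [h1, xa] at xc; norm_num at xc
    set Y : Finset V := Finset.univ.filter fun i => x i = 1 ∨ i = c with hY
    have haY : a ∉ Y := by
      rw [hY, Finset.mem_filter]
      rintro ⟨-, h1 | h1⟩
      · rw [xa] at h1; norm_num at h1
      · exact hca h1.symm
    have hbY : b ∉ Y := by
      rw [hY, Finset.mem_filter]
      rintro ⟨-, h1 | h1⟩
      · rw [xb] at h1; norm_num at h1
      · exact hcb h1.symm
    have h1 : Tight f (- -mv x a b) Yᶜᶜ := by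
      refine mid_neg h hm (hx'.neg h) hb' ?_ ?_
      · intro k hk
        simp only [Pi.neg_apply] at hk
        have hk' : mv x a b k = -1 := by linarith
        rw [Finset.mem_compl, hY, Finset.mem_filter]
        rintro ⟨-, h2 | h2⟩
        · have hka : k ≠ a := fun h3 => haY (by
            rw [hY, Finset.mem_filter, ← h3]; exact ⟨Finset.mem_univ _, Or.inl h2⟩)
          have hkb : k ≠ b := fun h3 => hbY (by
            rw [hY, Finset.mem_filter, ← h3]; exact ⟨Finset.mem_univ _, Or.inl h2⟩)
          rw [mv_other hka hkb, h2] at hk'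
          norm_num at hk'
        · rw [h2, mv_other hca hcb, xc] at hk'
          norm_num at hk'
      · intro k hk
        simp only [Pi.neg_apply] at hk
        have hk' : mv x a b k = 1 := by linarith
        rw [Finset.mem_compl, not_not, hY, Finset.mem_filter]
        refine ⟨Finset.mem_univ _, Or.inl ?_⟩
        have hka : k ≠ a := fun h3 => by rw [h3, e1] at hk'; norm_num at hk'
        have hkb : k ≠ b := fun h3 => by rw [h3, e2] at hk'; norm_num at hk'
        rwa [mv_other hka hkb] at hk'
    rw [compl_compl, neg_neg] at h1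
    have h2 : Tight f x Y := by
      unfold Tight at h1 ⊢
      rw [← h1]
      rw [sum_mv_eq x haY hbY]
    have h3 := (hns' Y h2).1 (Finset.mem_filter.2 ⟨Finset.mem_univ _, Or.inr rfl⟩)
    rcases (Finset.mem_filter.1 h3).2 with h4 | h4
    · rw [xd] at h4; norm_num at h4
    · exact hcd h4.symm

end max

end Pool.Agent.H70.FMS
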